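import Pool.Agent.TF.Stmts

/-!
# Squad TF, row SUB (helper9): submodularity of entropy (MP_589914_co)
-/

set_option autoImplicit false

namespace Pool.Agent.TF.H9

variable {Ω : Type} [Fintype Ω] (P : Law Ω)

theorem q_nonneg {S : Type} (X : Ω → S) (s : S) : 0 ≤ P.q X s := by
  classical
  unfold Law.q
  refine Finset.sum_nonneg fun ω _ => ?_
  split_ifs
  · exact P.nn ω
  · exact le_rfl

theorem p_le_q {S : Type} (X : Ω → S) (ω : Ω) : P.p ω ≤ P.q X (X ω) := by
  classical
  unfold Law.q
  have h := Finset.single_le_sum (f := fun ω' => if X ω' = X ω then P.p ω' else 0)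
    (fun ω' _ => by
      split_ifs
      · exact P.nn ω'
      · exact le_rfl) (Finset.mem_univ ω)
  simpa using h

theorem q_pos {S : Type} (X : Ω → S) {ω : Ω} (h : P.p ω ≠ 0) : 0 < P.q X (X ω) :=
  lt_of_lt_of_le (lt_of_le_of_ne (P.nn ω) (Ne.symm h)) (p_le_q P X ω)

/-- The expectation of the quotient of the densities is at most one. -/
theorem key {S T U : Type} (X : Ω → S) (Y : Ω → T) (Z : Ω → U) :
    ∑ ω, P.p ω * (P.q (fun ω => (X ω, Z ω)) (X ω, Z ω) * P.q (fun ω => (Y ω, Z ω)) (Y ω, Z ω) /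
      (P.q (fun ω => (X ω, (Y ω, Z ω))) (X ω, (Y ω, Z ω)) * P.q Z (Z ω))) ≤ 1 := by
  classical
  set Q : S × (T × U) → ℝ := P.q (fun ω => (X ω, (Y ω, Z ω))) with hQ
  have hQ0 : ∀ s, 0 ≤ Q s := fun s => q_nonneg P _ s
  have hZ0 : ∀ u, 0 ≤ P.q Z u := fun u => q_nonneg P _ u
  calc ∑ ω, P.p ω * (P.q (fun ω => (X ω, Z ω)) (X ω, Z ω) *
        P.q (fun ω => (Y ω, Z ω)) (Y ω, Z ω) / (Q (X ω, (Y ω, Z ω)) * P.q Z (Z ω)))
      = ∑ ω, ∑ ω', ∑ ω'', P.p ω * ((if (X ω', Z ω') = (X ω, Z ω) then P.p ω' else 0) *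
          (if (Y ω'', Z ω'') = (Y ω, Z ω) then P.p ω'' else 0) /
          (Q (X ω, (Y ω, Z ω)) * P.q Z (Z ω))) := by
        refine Finset.sum_congr rfl fun ω _ => ?_
        have e1 : P.q (fun ω => (X ω, Z ω)) (X ω, Z ω) =
            ∑ ω', if (X ω', Z ω') = (X ω, Z ω) then P.p ω' else 0 := by
          unfold Law.q
          exact Finset.sum_congr rfl fun _ _ => by congr
        have e2 : P.q (fun ω => (Y ω, Z ω)) (Y ω, Z ω) =
            ∑ ω', if (Y ω', Z ω') = (Y ω, Z ω) then P.p ω' else 0 := by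
          unfold Law.q
          exact Finset.sum_congr rfl fun _ _ => by congr
        rw [e1, e2, Finset.sum_mul_sum, Finset.sum_div, Finset.mul_sum]
        refine Finset.sum_congr rfl fun ω' _ => ?_
        rw [Finset.sum_div, Finset.mul_sum]
    _ = ∑ ω', ∑ ω'', ∑ ω, P.p ω * ((if (X ω', Z ω') = (X ω, Z ω) then P.p ω' else 0) *
          (if (Y ω'', Z ω'') = (Y ω, Z ω) then P.p ω'' else 0) /
          (Q (X ω, (Y ω, Z ω)) * P.q Z (Z ω))) := by
        rw [Finset.sum_comm]
        exact Finset.sum_congr rfl fun ω' _ => Finset.sum_comm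
    _ ≤ ∑ ω', ∑ ω'', P.p ω' * ((if Z ω'' = Z ω' then P.p ω'' else 0) / P.q Z (Z ω')) := by
        refine Finset.sum_le_sum fun ω' _ => Finset.sum_le_sum fun ω'' _ => ?_
        by_cases hz : Z ω'' = Z ω'
        · rw [if_pos hz]
          have hc : 0 ≤ P.p ω' * (P.p ω'' / P.q Z (Z ω')) :=
            mul_nonneg (P.nn _) (div_nonneg (P.nn _) (hZ0 _))
          calc _ ≤ ∑ ω, (P.p ω' * (P.p ω'' / P.q Z (Z ω'))) *
                ((if (X ω, (Y ω, Z ω)) = (X ω', (Y ω'', Z ω')) then P.p ω else 0) /
                  Q (X ω', (Y ω'', Z ω'))) := by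
                refine Finset.sum_le_sum fun ω _ => ?_
                by_cases h1 : (X ω, (Y ω, Z ω)) = (X ω', (Y ω'', Z ω'))
                · obtain ⟨hx, hy, hzz⟩ : X ω = X ω' ∧ Y ω = Y ω'' ∧ Z ω = Z ω' := by
                    simpa using h1
                  rw [if_pos h1, if_pos (by rw [hx, hzz]), if_pos (by rw [hy, hzz, hz]), hx, hy,
                    hzz]
                  apply le_of_eq
                  by_cases hq : Q (X ω', (Y ω'', Z ω')) = 0
                  · rw [hq]
                    simp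
                  · by_cases hq' : P.q Z (Z ω') = 0
                    · rw [hq']
                      simp
                    · field_simp
                · have h2 : ¬ ((X ω', Z ω') = (X ω, Z ω) ∧ (Y ω'', Z ω'') = (Y ω, Z ω)) := by
                    rintro ⟨h3, h4⟩
                    apply h1
                    rw [Prod.mk.injEq] at h3 h4
                    rw [h3.1, h3.2, h4.1]
                  rw [if_neg h1, zero_div, mul_zero]
                  apply le_of_eq
                  by_cases h3 : (X ω', Z ω') = (X ω, Z ω)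
                  · rw [if_neg (fun h4 => h2 ⟨h3, h4⟩)]
                    simp
                  · rw [if_neg h3]
                    simp
            _ = (P.p ω' * (P.p ω'' / P.q Z (Z ω'))) *
                (Q (X ω', (Y ω'', Z ω')) / Q (X ω', (Y ω'', Z ω'))) := by
                rw [← Finset.mul_sum, ← Finset.sum_div]
                congr 2
                rw [hQ]
                unfold Law.q
                exact Finset.sum_congr rfl fun _ _ => by congr
            _ ≤ (P.p ω' * (P.p ω'' / P.q Z (Z ω'))) * 1 :=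
                mul_le_mul_of_nonneg_left (div_self_le_one _) hc
            _ = _ := mul_one _
        · rw [if_neg hz, zero_div, mul_zero]
          apply le_of_eq
          refine Finset.sum_eq_zero fun ω _ => ?_
          by_cases h3 : (X ω', Z ω') = (X ω, Z ω)
          · rw [if_neg (fun h4 : (Y ω'', Z ω'') = (Y ω, Z ω) => hz (by
              rw [Prod.mk.injEq] at h3 h4
              rw [h3.2, h4.2]))]
            simp
          · rw [if_neg h3]
            simp
    _ = ∑ ω', P.p ω' * (P.q Z (Z ω') / P.q Z (Z ω')) := by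
        refine Finset.sum_congr rfl fun ω' _ => ?_
        rw [← Finset.mul_sum, ← Finset.sum_div]
        congr 2
    _ ≤ ∑ ω', P.p ω' * 1 :=
        Finset.sum_le_sum fun ω' _ => mul_le_mul_of_nonneg_left (div_self_le_one _) (P.nn _)
    _ = 1 := by
        simp only [mul_one]
        exact P.one

/-- SUB -/
theorem sub : SubStmt := by
  intro Ω S T U _ P X Y Z
  unfold Law.C Law.H
  have h : ∑ ω, P.p ω * (Real.log (P.q (fun ω => (X ω, Z ω)) (X ω, Z ω)) +
      Real.log (P.q (fun ω => (Y ω, Z ω)) (Y ω, Z ω)) -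
      Real.log (P.q (fun ω => (X ω, (Y ω, Z ω))) (X ω, (Y ω, Z ω))) -
      Real.log (P.q Z (Z ω))) ≤ 0 := by
    have h1 : ∀ ω, P.p ω * (Real.log (P.q (fun ω => (X ω, Z ω)) (X ω, Z ω)) +
        Real.log (P.q (fun ω => (Y ω, Z ω)) (Y ω, Z ω)) -
        Real.log (P.q (fun ω => (X ω, (Y ω, Z ω))) (X ω, (Y ω, Z ω))) -
        Real.log (P.q Z (Z ω))) ≤
        P.p ω * (P.q (fun ω => (X ω, Z ω)) (X ω, Z ω) *
          P.q (fun ω => (Y ω, Z ω)) (Y ω, Z ω) /
          (P.q (fun ω => (X ω, (Y ω, Z ω))) (X ω, (Y ω, Z ω)) * P.q Z (Z ω))) - P.p ω := by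
      intro ω
      by_cases hp : P.p ω = 0
      · rw [hp]
        simp
      · have a1 := q_pos P (fun ω => (X ω, Z ω)) hp
        have a2 := q_pos P (fun ω => (Y ω, Z ω)) hp
        have a3 := q_pos P (fun ω => (X ω, (Y ω, Z ω))) hp
        have a4 := q_pos P Z hp
        have h2 := Real.log_le_sub_one_of_pos (div_pos (mul_pos a1 a2) (mul_pos a3 a4))
        rw [Real.log_div (mul_pos a1 a2).ne' (mul_pos a3 a4).ne', Real.log_mul a1.ne' a2.ne',
          Real.log_mul a3.ne' a4.ne'] at h2
        have h3 := mul_le_mul_of_nonneg_left h2 (P.nn ω)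
        linarith
    refine (Finset.sum_le_sum fun ω _ => h1 ω).trans ?_
    rw [Finset.sum_sub_distrib, P.one]
    linarith [key P X Y Z]
  simp only [mul_add, mul_sub, Finset.sum_add_distrib, Finset.sum_sub_distrib] at h
  linarith

end Pool.Agent.TF.H9
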